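import Pool.Agent.Run7.h567.PD.Fin

/-!
# MP_b583a4_nt: one common Frobenius eigenvalue at a positive proportion of the primes

Let `K` be a number field (for example `ℚ`) and `E` an algebraically closed topological field of
characteristic zero (for example the algebraic closure of `ℚ_p`); let `V` and `W` be continuous
two-dimensional representations of the Galois group of `K` over `E`, and let `V` be irreducible on
every open subgroup (for example `V` with distinct Hodge-Tate weights which is not induced from a
character of an open subgroup).

1. `V` and `W` have ONE common Frobenius eigenvalue at a set of places of positive upper density if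
and only if `W` is isomorphic to `V ⊗ ψ` with a character `ψ` of finite order.

2. If a class `𝓜` of representations is closed under twists by characters of finite order (for
example all `V_f ⊗ χ`, `f` a cuspidal eigenform), then `V` is in `𝓜` as soon as it has ONE common
Frobenius eigenvalue with a member of `𝓜` at a set of places of positive upper density.

The proof was written by helper68, helper192, helper354, helper404, helper596, helper863,
helper993 and helper567.
-/

set_option autoImplicit false

namespace Pool.Agent.Results.MP_b583a4_nt.OneEigenvalueUpToTwist

open Run7.h567.GO Run7.h567.PD Polynomial NumberField IsDedekindDomain Pool.Agent.W401.Cheb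

theorem result (K : Type) [Field K] [NumberField K] (E : Type) [Field E] [CharZero E]
    [IsAlgClosed E] [TopologicalSpace E] [IsTopologicalRing E] [T2Space E] (V : MRep (GK K) E 2)
    (hVc : Continuous fun g => (V g : Matrix (Fin 2) (Fin 2) E)) (hV : StrongIrred V) :
    (∀ W : MRep (GK K) E 2, (Continuous fun g => (W g : Matrix (Fin 2) (Fin 2) E)) →
      List.TFAE [
        CommonEigenvalue V W,
        ∃ δ : ℝ, 0 < δ ∧ UpperDensity K δ fun g => (V g).charpoly = (W g).charpoly,
        ∃ ψ : GK K →* E, FinOrd ψ ∧ TwistOf V W ψ]) ∧
    (∀ 𝓜 : MRep (GK K) E 2 → Prop,
      (∀ W, 𝓜 W → Continuous fun g => (W g : Matrix (Fin 2) (Fin 2) E)) → TwistClosed 𝓜 →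
      (𝓜 V ↔ ∃ W, 𝓜 W ∧ CommonEigenvalue V W)) :=
  ⟨fun _ hWc => one_eigenvalue hVc hWc hV, fun _ hcont htw => class_one hcont htw hVc hV⟩

end Pool.Agent.Results.MP_b583a4_nt.OneEigenvalueUpToTwist
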