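import Pool.Agent.Run7.h199.ZO.Eff2

/-!
# A two-dimensional representation is modular up to twist, or sparse

Let `𝒞` be the category of the semisimple continuous `ℚ̄_p`-representations of `G_ℚ` which are unramified at
almost all primes, and let `𝒢` be the smallest class of objects of `𝒞` which contains the `V_f` for all
cuspidal eigenforms `f`, the representations with finite image and all characters in `𝒞`, and is stable under direct sums, subobjects, tensor
products and duals. By Tannaka duality, with an isomorphism `ℚ̄_p ≅ ℂ`, the category `𝒞` is the category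
of the representations of a pro-reductive group `Γ`, and `𝒢` is the class of the representations on which
a normal subgroup `N` acts trivially; the largest subobject of `V` in `𝒢` is `V^N`. A two-dimensional `V` in
`𝒞` is a homomorphism `ρ : Γ → GL_2(ℂ)`, and `det ρ(g) = 1` for `g` in `N`. Let `V` be as in Q1. If
it is not induced from a quadratic field and has infinite projective image, then it is irreducible on all
subgroups of finite index (`LieIrr`), and then it is a twist `V_f ⊗ χ` if and only if `N` acts on it
through `± 1`: in this case the adjoint representation of `V` is in `𝒢`, so it is the adjoint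
representation of some `V_f`.

The theorem is about arbitrary groups `Γ` and normal subgroups `N`.

**Theorem.** Let `V` be a complex representation of `Γ` of dimension two which is irreducible on every
subgroup of finite index, and let `det(g) = 1` on `V` for all `g` in the normal subgroup `N`. Let
`V^n` be the `n`-th tensor power. The following are equivalent.

1. `N` acts on `V` through `± 1`.
2. There are one `n` and a representation `W` of `Γ` for which the vectors of `V^n ⊗ W` which are fixed by `N`
   form a space of dimension more than `2^n dim W / (n + 1)^(1/2)`.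
3. `N` acts trivially on `V^n` for all even `n`.
4. For one `n` the share of the fixed vectors in `V^n` is larger than `1 / (n + 1)^(1/2)`.

So a representation `V` as in Q1 which is irreducible on all subgroups of finite index is modular up to
twist if for one `n ≥ 10000` there is a `W` such that one percent of `V^n ⊗ W` is a sum of
constituents of tensor products of modular representations, representations with finite image and
characters.

The proof. Let `g` be in `N` with eigenvalues `l_1, ..., l_b` on `V`. By comparing traces of polynomials in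
`g`, the space of the fixed vectors of `g` in `V^n ⊗ W` has dimension at most `dim W` times the largest
number of words of length `n` in `l_1, ..., l_b` with a given product. Let the ratio of `l_i` and `l_j` have order
larger than `n`. If all letters of a word other than `l_i`, `l_j` are given (and the `k` places of these
two) then the product determines how often `l_i` occurs. So the number of words is at most the sum of
`binom(n, k) (b - 2)^(n - k) binom(k, k / 2)` over `k`, and by the inequality of Cauchy and Schwarz and
`binom(k, k / 2)^2 ≤ 4^k / (k + 1)` this is at most `(b / (2 (n + 1)))^(1/2) b^n`. So if `V` is not thin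
then there is an `n` such that all ratios of eigenvalues of elements of `N` have order at most `n`. Then
the traces of the set `N_1` of the multiples of determinant one of elements of `N` take only finitely
many values. The linear span of `N_1` is an algebra which is normalised by `Γ`, and as `V` is
irreducible the trace form of this algebra is nondegenerate. So `N_1` is finite (Burnside's argument),
and a subgroup `H` of finite index in `Γ` commutes with it. If `V` is irreducible on `H` then the elements
of `N` act as scalars (Schur's lemma). If `N` acts by scalars then `V` is not thin: take the dual of `V^n`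
for `W`.
-/

set_option autoImplicit false

open Filter Topology Matrix Run7.h199.ZO

namespace Pool.Agent.Results.MP_b583a4_nt.OnePercent

/-- **The one percent law.** -/
theorem result {Γ : Type*} [Group Γ] (N : Subgroup Γ) [N.Normal]
    (ρ : Γ →* Matrix (Fin 2) (Fin 2) ℂ) (hρ : LieIrr ρ) (hdet : ∀ g ∈ N, (ρ g).det = 1) :
    ((∀ g ∈ N, ρ g = 1 ∨ ρ g = -1) ↔
      ∃ (n : ℕ) (κ : Type) (_ : Fintype κ) (_ : DecidableEq κ) (σ : Γ →* Matrix κ κ ℂ),
        (2 : ℝ) ^ n * Fintype.card κ / Real.sqrt (n + 1) < Module.finrank ℂ (fixw ρ N n σ)) ∧
    ((∀ g ∈ N, ρ g = 1 ∨ ρ g = -1) ↔ ∀ n, Even n → fix ρ N n = ⊤) ∧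
    ((∀ g ∈ N, ρ g = 1 ∨ ρ g = -1) ↔ ∃ n : ℕ, 1 / Real.sqrt (n + 1) < share ρ N n) := by
  have h2 : ∀ g ∈ N, (∃ c : ℂ, ρ g = c • 1) → ρ g = 1 ∨ ρ g = -1 := by
    rintro g hg ⟨c, hc⟩
    have h3 := hdet g hg
    rw [hc, Matrix.det_smul, Matrix.det_one, mul_one, Fintype.card_fin] at h3
    rw [sq] at h3
    rcases mul_self_eq_one_iff.1 h3 with h4 | h4
    · left
      rw [hc, h4, one_smul]
    · right
      rw [hc, h4, neg_smul, one_smul]
  have h3 : ∀ g, (ρ g = 1 ∨ ρ g = -1) → ∃ c : ℂ, ρ g = c • 1 ∧ c ^ 2 = 1 := by
    rintro g (h | h)
    · exact ⟨1, by rw [h, one_smul], by norm_num⟩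
    · exact ⟨-1, by rw [h, neg_smul, one_smul], by norm_num⟩
  have hs : ∀ n : ℕ, Real.sqrt ((2 : ℕ) / (2 * (n + 1))) = 1 / Real.sqrt (n + 1) := by
    intro n
    rw [← Real.sqrt_one, ← Real.sqrt_div zero_le_one, Real.sqrt_one]
    congr 1
    push_cast
    field_simp
  have key : (∀ g ∈ N, ρ g = 1 ∨ ρ g = -1) ↔ ¬ Thin ρ N := by
    rw [← scalar_iff_thin two_pos hρ]
    exact ⟨fun h g hg => ⟨_, (h3 g (h g hg)).choose_spec.1⟩, fun h g hg => h2 g hg (h g hg)⟩
  have heven : (∀ g ∈ N, ρ g = 1 ∨ ρ g = -1) → ∀ n, Even n → fix ρ N n = ⊤ := by
    intro h n hn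
    obtain ⟨d, hd⟩ := hn.two_dvd
    apply fix_eq_top
    intro g hg
    obtain ⟨c, hc, hc2⟩ := h3 g (h g hg)
    exact ⟨c, hc, by rw [hd, pow_mul, hc2, one_pow]⟩
  have hone : (∀ n, Even n → fix ρ N n = ⊤) → ∃ n : ℕ, 1 / Real.sqrt (n + 1) < share ρ N n := by
    intro h
    refine ⟨2, ?_⟩
    rw [share_eq_one two_pos (h 2 even_two), ← hs, Real.sqrt_lt' one_pos]
    norm_num
  have hlast : (∃ n : ℕ, 1 / Real.sqrt (n + 1) < share ρ N n) → ∀ g ∈ N, ρ g = 1 ∨ ρ g = -1 := by
    rintro ⟨n, hn⟩
    refine key.2 fun hs' => ?_
    have h4 := hs'.share_le two_pos n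
    rw [hs n] at h4
    exact absurd hn (not_lt.2 h4)
  refine ⟨?_, ⟨heven, fun h => hlast (hone h)⟩, fun h => hone (heven h), hlast⟩
  rw [key, Thin]
  have hr : ∀ (n : ℕ) (x : ℝ), Real.sqrt ((2 : ℕ) / (2 * (n + 1))) * (((2 : ℕ) : ℝ) ^ n * x) =
      (2 : ℝ) ^ n * x / Real.sqrt (n + 1) := by
    intro n x
    rw [hs n, one_div, inv_mul_eq_div]
    push_cast
    rfl
  constructor
  · intro h
    by_contra hcon
    apply h
    intro n κ i1 i2 σ
    rw [hr]
    by_contra h6
    exact hcon ⟨n, κ, i1, i2, σ, not_le.1 h6⟩
  · rintro ⟨n, κ, i1, i2, σ, h5⟩ h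
    have h6 := h n κ σ
    rw [hr] at h6
    exact absurd h6 (not_le.2 h5)

end Pool.Agent.Results.MP_b583a4_nt.OnePercent
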