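import Pool.Agent.Run7.h306.FQ7
import Pool.Agent.Run7.h306.FQ8

/-!
# Two-dimensional representations whose reduction is twice a character: the restriction to the
# decomposition group at `p`

Let `p` be an odd prime, `E` a finite extension of `ℚ_p` (or of `𝔽_p((t))`), `A` its ring of integers and
`V` a continuous two-dimensional `E`-representation of `Gal(ℚbar/ℚ)`, unramified outside `p` and a finite
set `S` of primes, such that the semisimplification of its reduction is the sum of two copies of a
character (such `V` are even; the conjecture of Fontaine and Mazur says that none is irreducible and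
potentially semistable with distinct Hodge-Tate weights).

THEOREM. Suppose that only one prime `q` in `S` is congruent to `1` modulo `p`, and that `p` is not a
`p`-th power modulo `q`. Then the decomposition group `D` at `p` and `Gal(ℚbar/ℚ)` have the same image in
`PGL_2(E)`, and if `V` is absolutely irreducible then `V` is absolutely irreducible on every subgroup of
finite index of `D`. So no absolutely irreducible `V` is potentially reducible (for example potentially
ordinary) at `p`. There is no condition on the ramification of `A` and on the inertia at `q`.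

If there are more primes `l` in `S` which are congruent to `1` modulo `p`, this holds for every closed
subgroup that contains `D` and inertia groups at all of them but `q`. For every prime `p` the condition
holds for a proportion of at least `1 - 1/p` of all primes `q` congruent to `1` modulo `p`.

For general `V` the theorem holds if `p` splits completely in no cyclic extension of degree `p` of `ℚ`
which is contained in the field cut out by the projective representation of `V`.
-/

set_option autoImplicit false

open NumberField Matrix IsLocalRing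

namespace Pool.Agent.Results.MP_b583a4_nt.StronglyIrreducibleAtP

open Finset Filter

/-- The absolute Galois group of `ℚ`. -/
abbrev G : Type := Gal(AlgebraicClosure ℚ/ℚ)

/-- The inertia group at the prime ideal `P` of the ring of all algebraic integers. -/
def Inertia (P : Ideal (𝓞 (AlgebraicClosure ℚ))) : Set G :=
  {g | ∀ x : 𝓞 (AlgebraicClosure ℚ), g • x - x ∈ P}

/-- The decomposition group at the prime ideal `P` of the ring of all algebraic integers. -/
def Decomposition (P : Ideal (𝓞 (AlgebraicClosure ℚ))) : Set G :=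
  {g | ∀ x : 𝓞 (AlgebraicClosure ℚ), g • x ∈ P ↔ x ∈ P}

section
variable {A : Type} [CommRing A]

/-- `ρ` is unramified at all primes that do not lie above `p` or above a prime number in `S`. -/
def UnramifiedOutside (p : ℕ) (S : Finset ℕ) (ρ : G →* GL (Fin 2) A) : Prop :=
  ∀ P : Ideal (𝓞 (AlgebraicClosure ℚ)), P.IsMaximal →
    (∀ l ∈ S, (l : 𝓞 (AlgebraicClosure ℚ)) ∉ P) → (p : 𝓞 (AlgebraicClosure ℚ)) ∉ P →
      ∀ g ∈ Inertia P, ρ g = 1

/-- The elements of `B` have a common eigenvector in `K ^ 2`, that is `V ⊗ K` is reducible on `B`. -/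
def Reducible (K : Type) [Field K] [Algebra A K] (ρ : G →* GL (Fin 2) A) (B : Set G) : Prop :=
  ∃ v : Fin 2 → K, v ≠ 0 ∧ ∀ g ∈ B, ∃ c : K,
    (ρ g : Matrix (Fin 2) (Fin 2) A).map (algebraMap A K) *ᵥ v = c • v

variable [IsLocalRing A]

/-- There is a character `a` with values in the residue field such that `a g` is the only
eigenvalue of the reduction of `ρ g`, for all `g`; by Brauer and Nesbitt this says that the
semisimplification of the reduction of `ρ` is the sum of two copies of `a`. -/
def ResiduallyScalar (ρ : G →* GL (Fin 2) A) : Prop :=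
  ∃ a : G →* (ResidueField A)ˣ, ∀ g,
    IsNilpotent ((ρ g : Matrix (Fin 2) (Fin 2) A).map (residue A) -
      (a g : ResidueField A) • (1 : Matrix (Fin 2) (Fin 2) (ResidueField A)))

/-- (i) The images of `H` and of the whole Galois group are equal up to scalars, modulo all powers of
the maximal ideal; (ii) if `V` is absolutely irreducible, then it is absolutely irreducible on all
subgroups of finite index of `H`, more precisely on all subgroups `H'` of the Galois group such that
`H` is contained in the union of finitely many left cosets of `H'`. -/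
def Determined (ρ : G →* GL (Fin 2) A) (H : Subgroup G) : Prop :=
  (∀ (k : ℕ) (g : G), ∃ h ∈ H, ∃ c : A, IsUnit c ∧ ∀ i j,
    ((ρ g : Matrix (Fin 2) (Fin 2) A) - c • (ρ h : Matrix (Fin 2) (Fin 2) A)) i j ∈
      maximalIdeal A ^ k) ∧
  ∀ (K : Type) [Field K] [IsAlgClosed K] [Algebra A K], Function.Injective (algebraMap A K) →
    ¬ Reducible K ρ Set.univ → ∀ (H' : Subgroup G) (R : Set G), R.Finite →
      (∀ h ∈ H, ∃ r ∈ R, r⁻¹ * h ∈ H') → ¬ Reducible K ρ H'

end

/-- All continuous residually scalar representations, over all complete discrete valuation rings with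
finite residue field of characteristic `p`, which are unramified outside `S` and `p`, are determined on
`H`. -/
def AllDetermined (p : ℕ) (S : Finset ℕ) (H : Subgroup G) : Prop :=
  ∀ (A : Type) [CommRing A] [IsDomain A] [IsDiscreteValuationRing A]
    [IsAdicComplete (maximalIdeal A) A] [TopologicalSpace A], IsAdic (maximalIdeal A) →
    Finite (ResidueField A) → (p : A) ∈ maximalIdeal A → ∀ ρ : G →* GL (Fin 2) A, Continuous ρ →
      UnramifiedOutside p S ρ → ResiduallyScalar ρ → Determined ρ H

/-- All representations as above whose tame ramification is at most at `q` (all primes `l` in `S` with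
`l ≡ 1` modulo `p` are equal to `q`) are determined on every subgroup which contains the decomposition
group at a prime above `p`. -/
def GoodPrime (p q : ℕ) : Prop :=
  ∀ S : Finset ℕ, (∀ l ∈ S, l.Prime ∧ l ≠ p) → (∀ l ∈ S, p ∣ l - 1 → l = q) →
    ∀ P : Ideal (𝓞 (AlgebraicClosure ℚ)), P.IsMaximal → (p : 𝓞 (AlgebraicClosure ℚ)) ∈ P →
      ∀ H : Subgroup G, Decomposition P ⊆ H → AllDetermined p S H

theorem determined_of (p : ℕ) [hp : Fact p.Prime] (hp2 : p ≠ 2)
    (A : Type) [CommRing A] [IsDomain A] [IsDiscreteValuationRing A]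
    [IsAdicComplete (maximalIdeal A) A] [TopologicalSpace A] (hA : IsAdic (maximalIdeal A))
    (hfin : Finite (ResidueField A)) (hpA : (p : A) ∈ maximalIdeal A)
    (ρ : G →* GL (Fin 2) A) (hρ : Continuous ρ) (hres : ResiduallyScalar ρ) (H : Subgroup G)
    (hkey : ∀ f : G →* Multiplicative (ZMod p), IsOpen (f.ker : Set G) →
      (∀ (g : G) (c : A), (ρ g : Matrix (Fin 2) (Fin 2) A) = c • 1 → f g = 1) →
        (∀ g ∈ H, f g = 1) → ∀ g, f g = 1) : Determined ρ H := by
  obtain ⟨a, ha⟩ := hres
  obtain ⟨h1, h2⟩ := Pool.Agent.Run7.h306.FQ.strong hp2 hA hfin hpA hρ ha H hkey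
  refine ⟨h1, fun K _ _ _ hinj hirr H' R hRf hR hred => ?_⟩
  obtain ⟨v, hv, hv'⟩ := hred
  obtain ⟨u, hu, hu'⟩ := h2 K hinj H' R v hRf hR hv (fun g hg => by
    obtain ⟨c, hc⟩ := hv' g hg
    exact Pool.Agent.Run7.h306.FQ.mem_lst _ hv hc)
  refine hirr ⟨u, hu, fun g _ => ?_⟩
  obtain ⟨c, -, hc⟩ := hu' g
  exact ⟨c, hc⟩

theorem local_of (p : ℕ) [hp : Fact p.Prime] (hp2 : p ≠ 2) (S : Finset ℕ)
    (hS : ∀ l ∈ S, l.Prime ∧ l ≠ p) (q : ℕ) (hq : q ∈ S → p ∣ q - 1 → ∀ x : ZMod q, x ^ p ≠ p)
    (P : Ideal (𝓞 (AlgebraicClosure ℚ))) (hP : P.IsMaximal) (hpP : (p : 𝓞 (AlgebraicClosure ℚ)) ∈ P)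
    (H : Subgroup G) (hD : Decomposition P ⊆ H)
    (hI : ∀ l ∈ S, p ∣ l - 1 → l ≠ q → ∃ Q : Ideal (𝓞 (AlgebraicClosure ℚ)), Q.IsMaximal ∧
      (l : 𝓞 (AlgebraicClosure ℚ)) ∈ Q ∧ Inertia Q ⊆ H) : AllDetermined p S H := by
  intro A _ _ _ _ _ hA hfin hpA ρ hρ hur hres
  refine determined_of p hp2 A hA hfin hpA ρ hρ hres H fun f hf h1 h2 => ?_
  refine Pool.Agent.Run7.h306.FQ.f_trivial hp2 S hS q hq P hP hpP f hf ?_ ?_ ?_
  · rintro g ⟨Q, hQ, h3, h4, h5⟩
    refine h1 g 1 ?_
    rw [hur Q hQ h3 h4 g h5, one_smul, Units.val_one]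
  · intro l hl hpl hlq
    obtain ⟨Q, hQ, h3, h4⟩ := hI l hl hpl hlq
    exact ⟨Q, hQ, h3, fun τ hτ => h2 τ (h4 hτ)⟩
  · intro g hg
    exact h2 g (hD hg)

open Classical in
/-- **Strong irreducibility at `p`.** Let `p` be an odd prime.
(1) Let `S` be a finite set of primes different from `p`, `q` a number such that `p` is not a `p`-th
power modulo `q` if `q` is in `S` and congruent to `1` modulo `p`, and `H` a subgroup that contains the
decomposition group at a prime above `p` and inertia groups at all primes `l ≠ q` in `S` which are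
congruent to `1` modulo `p`. Then all residually scalar representations unramified outside `S` and `p`
are determined on `H`.
(2) So `GoodPrime p q` holds for all `q` for which `p` is not a `p`-th power modulo `q`, and
(3) for a proportion of at least `1 - 1/p` of all primes `q ≡ 1` modulo `p`.
(4) A residually scalar representation `ρ` is determined on `H` if no nonzero continuous homomorphism
from the Galois group to `ℤ/p` vanishes on `H` and on all `g` for which `ρ g` is a scalar; for `H` the
decomposition group at `p` this says that `p` splits completely in no cyclic extension of `ℚ` of degree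
`p` contained in the field cut out by the projective representation. -/
theorem result (p : ℕ) [Fact p.Prime] (hp2 : p ≠ 2) :
    -- (1)
    (∀ S : Finset ℕ, (∀ l ∈ S, l.Prime ∧ l ≠ p) → ∀ q : ℕ,
      (q ∈ S → p ∣ q - 1 → ∀ x : ZMod q, x ^ p ≠ p) →
      ∀ P : Ideal (𝓞 (AlgebraicClosure ℚ)), P.IsMaximal → (p : 𝓞 (AlgebraicClosure ℚ)) ∈ P →
      ∀ H : Subgroup G, Decomposition P ⊆ H →
      (∀ l ∈ S, p ∣ l - 1 → l ≠ q → ∃ Q : Ideal (𝓞 (AlgebraicClosure ℚ)), Q.IsMaximal ∧
        (l : 𝓞 (AlgebraicClosure ℚ)) ∈ Q ∧ Inertia Q ⊆ H) → AllDetermined p S H) ∧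
    -- (2)
    (∀ q : ℕ, (∀ x : ZMod q, x ^ p ≠ p) → GoodPrime p q) ∧
    -- (3)
    (∀ ε : ℝ, 0 < ε → ∀ᶠ x : ℕ in atTop, (1 - 1 / (p : ℝ) - ε) *
      (((range (x + 1)).filter fun q => q.Prime ∧ p ∣ q - 1).card : ℝ) ≤
      (((range (x + 1)).filter fun q => q.Prime ∧ p ∣ q - 1 ∧ GoodPrime p q).card : ℝ)) ∧
    -- (4)
    (∀ (A : Type) [CommRing A] [IsDomain A] [IsDiscreteValuationRing A]
      [IsAdicComplete (maximalIdeal A) A] [TopologicalSpace A], IsAdic (maximalIdeal A) →
      Finite (ResidueField A) → (p : A) ∈ maximalIdeal A → ∀ ρ : G →* GL (Fin 2) A, Continuous ρ →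
      ResiduallyScalar ρ → ∀ H : Subgroup G,
      (∀ f : G →* Multiplicative (ZMod p), IsOpen (f.ker : Set G) →
        (∀ (g : G) (c : A), (ρ g : Matrix (Fin 2) (Fin 2) A) = c • 1 → f g = 1) →
        (∀ g ∈ H, f g = 1) → ∀ g, f g = 1) → Determined ρ H) := by
  have h2 : ∀ q : ℕ, (∀ x : ZMod q, x ^ p ≠ p) → GoodPrime p q := by
    intro q hq S hS hSq P hP hpP H hD
    exact local_of p hp2 S hS q (fun _ _ => hq) P hP hpP H hD
      (fun l hl hpl hlq => absurd (hSq l hl hpl) hlq)
  refine ⟨fun S hS q hq P hP hpP H hD hI => local_of p hp2 S hS q hq P hP hpP H hD hI, h2,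
    fun ε hε => ?_, fun A _ _ _ _ _ hA hfin hpA ρ hρ hres H hkey =>
      determined_of p hp2 A hA hfin hpA ρ hρ hres H hkey⟩
  filter_upwards [Pool.Agent.Run7.h306.FQ.dens hp2 ε hε] with x hx
  refine le_trans hx (Nat.cast_le.2 (card_le_card fun q hq => ?_))
  rw [mem_filter] at hq ⊢
  exact ⟨hq.1, hq.2.1, hq.2.2.1, h2 q hq.2.2.2⟩

end Pool.Agent.Results.MP_b583a4_nt.StronglyIrreducibleAtP
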